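import Pool.Agent.W670.LL.Stm

set_option autoImplicit false

/-! Doubling, translation by points of order two, and halving. -/

namespace Pool.Agent.W440.LL

open WeierstrassCurve Pool.Agent.W670.LL

theorem curve {K : Type*} [Field K] {a b e₁ e₃ x y : K} (hr : Roots a b e₁ e₃)
    (h : (Cv a b).Nonsingular x y) : y ^ 2 = x * (x - e₁) * (x - e₃) := by
  have h1 := eqn h
  rw [hr.ha, hr.hb] at h1
  rw [h1]; ring

theorem rsq : S_RSQ := by
  intro K _ _ a b e₁ e₃ hr x y h hy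
  have h2 := hr.two
  have hf := curve hr h
  constructor
  · set l : K := (3 * x ^ 2 + 2 * a * x + b) / (2 * y) with hl
    set x₂ : K := l ^ 2 - a - 2 * x with hx₂
    set y₂ : K := -(y + l * (x₂ - x)) with hy₂
    obtain ⟨h₂, hadd⟩ := dbl_mk h h2 hy l x₂ y₂ (by rw [hl]; field_simp) hx₂ hy₂
    have e3' : x₂ - e₃ = r3 e₁ e₃ (Affine.Point.some x y h : Pt a b) ^ 2 := by
      change x₂ - e₃ = (((x - e₃) ^ 2 - e₃ * (e₃ - e₁)) / (2 * y)) ^ 2
      rw [hx₂, hl, hr.ha, hr.hb]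
      field_simp
      linear_combination (-4 * (-(e₁ + e₃) + 2 * x + e₃)) * hf
    have e1' : x₂ - e₁ = r1 e₁ e₃ (Affine.Point.some x y h : Pt a b) ^ 2 := by
      change x₂ - e₁ = (((x - e₁) ^ 2 - e₁ * (e₁ - e₃)) / (2 * y)) ^ 2
      rw [hx₂, hl, hr.ha, hr.hb]
      field_simp
      linear_combination (-4 * (-(e₁ + e₃) + 2 * x + e₁)) * hf
    have e2' : x₂ = r2 e₁ e₃ (Affine.Point.some x y h : Pt a b) ^ 2 := by
      change x₂ = (((x - 0) ^ 2 - e₁ * e₃) / (2 * y)) ^ 2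
      rw [hx₂, hl, hr.ha, hr.hb]
      field_simp
      linear_combination (-4 * (-(e₁ + e₃) + 2 * x)) * hf
    refine ⟨x₂, y₂, h₂, hadd, e3', e1', e2', ?_⟩
    change y₂ = ((x - e₁) ^ 2 - e₁ * (e₁ - e₃)) / (2 * y) * (((x - 0) ^ 2 - e₁ * e₃) / (2 * y)) *
      (((x - e₃) ^ 2 - e₃ * (e₃ - e₁)) / (2 * y))
    rw [hy₂, hx₂, hl, hr.ha, hr.hb]
    field_simp
    linear_combination (-8 * (y ^ 2 + x * (x - e₁) * (x - e₃)) +
      4 * (3 * x ^ 2 + 2 * (-(e₁ + e₃)) * x + e₁ * e₃) * (-(e₁ + e₃) + 3 * x)) * hf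
  · intro r₁ r₂ r₃ h1 h2' h3
    have e1 : r₁ = ((x - e₁) ^ 2 - e₁ * (e₁ - e₃)) / (2 * y) := h1
    have e2 : r₂ = ((x - 0) ^ 2 - e₁ * e₃) / (2 * y) := h2'
    have e3 : r₃ = ((x - e₃) ^ 2 - e₃ * (e₃ - e₁)) / (2 * y) := h3
    have s31 : r₃ + r₁ = (x - e₁) * (x - e₃) / y := by
      rw [e1, e3]; field_simp; ring
    have s32 : r₃ + r₂ = x * (x - e₃) / y := by
      rw [e2, e3]; field_simp; ring
    have s12 : r₁ + r₂ = x * (x - e₁) / y := by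
      rw [e1, e2]; field_simp; ring
    have s13 : r₁ + r₃ = (x - e₁) * (x - e₃) / y := by rw [add_comm, s31]
    have s21 : r₂ + r₁ = x * (x - e₁) / y := by rw [add_comm, s12]
    have s23 : r₂ + r₃ = x * (x - e₃) / y := by rw [add_comm, s32]
    refine ⟨?_, ?_, ?_, ?_⟩
    · rw [s31, s32]
      field_simp
      linear_combination (x - e₃) * hf
    · rw [s13, s12]
      field_simp
      linear_combination (x - e₁) * hf
    · rw [s21, s23]
      field_simp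
      linear_combination x * hf
    · rw [s12, s23, s31]
      field_simp
      linear_combination (y ^ 2 + x * (x - e₁) * (x - e₃)) * hf

/-- translation by a point of order two -/
theorem trans {K : Type*} [Field K] [DecidableEq K] {a b e e' : K} (hr : Roots a b e e')
    {x y : K} (h : (Cv a b).Nonsingular x y) (hx : x - e ≠ 0)
    (h₃ : (Cv a b).Nonsingular e 0) :
    ∃ h', (Affine.Point.some x y h : Pt a b) + Affine.Point.some e 0 h₃ =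
      Affine.Point.some (e * (x - e') / (x - e)) (-(e * (e - e') * y) / (x - e) ^ 2) h' := by
  have hf := curve hr h
  refine add_mk h h₃ (sub_ne_zero.mp hx) (y / (x - e)) _ _ ?_ ?_ ?_
  · field_simp; ring
  · rw [hr.ha]
    field_simp
    linear_combination (-1) * hf
  · field_simp
    ring

theorem rt : S_RT := by
  intro K _ _ a b e₁ e₃ hr x y h hy R hR
  have h2 := hr.two
  have hf := curve hr h
  have hx1 : x - e₁ ≠ 0 := by
    intro h0; rw [h0] at hf; apply hy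
    have : y ^ 2 = 0 := by rw [hf]; ring
    exact pow_eq_zero_iff (two_ne_zero) |>.mp this
  have hx3 : x - e₃ ≠ 0 := by
    intro h0; rw [h0] at hf; apply hy
    have : y ^ 2 = 0 := by rw [hf]; ring
    exact pow_eq_zero_iff (two_ne_zero) |>.mp this
  have hr' : Roots a b e₃ e₁ :=
    ⟨hr.two, hr.ne3, hr.ne1, hr.ne.symm, by rw [hr.ha]; ring, by rw [hr.hb]; ring⟩
  have n1 := hr.ne1
  have n3 := hr.ne3
  have n13 : e₁ - e₃ ≠ 0 := sub_ne_zero.mpr hr.ne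
  have n31 : e₃ - e₁ ≠ 0 := sub_ne_zero.mpr hr.ne.symm
  subst hR
  constructor
  · intro h₃
    obtain ⟨h', he⟩ := trans hr' h hx3 h₃
    rw [he]
    refine ⟨?_, ?_, ?_⟩
    · change ((e₃ * (x - e₁) / (x - e₃) - e₃) ^ 2 - e₃ * (e₃ - e₁)) /
        (2 * (-(e₃ * (e₃ - e₁) * y) / (x - e₃) ^ 2)) = ((x - e₃) ^ 2 - e₃ * (e₃ - e₁)) / (2 * y)
      field_simp
      ring
    · change ((e₃ * (x - e₁) / (x - e₃) - e₁) ^ 2 - e₁ * (e₁ - e₃)) /
        (2 * (-(e₃ * (e₃ - e₁) * y) / (x - e₃) ^ 2)) = -(((x - e₁) ^ 2 - e₁ * (e₁ - e₃)) / (2 * y))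
      field_simp
      ring
    · change ((e₃ * (x - e₁) / (x - e₃) - 0) ^ 2 - e₁ * e₃) /
        (2 * (-(e₃ * (e₃ - e₁) * y) / (x - e₃) ^ 2)) = -(((x - 0) ^ 2 - e₁ * e₃) / (2 * y))
      field_simp
      ring
  · intro h₁
    obtain ⟨h', he⟩ := trans hr h hx1 h₁
    rw [he]
    refine ⟨?_, ?_, ?_⟩
    · change ((e₁ * (x - e₃) / (x - e₁) - e₁) ^ 2 - e₁ * (e₁ - e₃)) /
        (2 * (-(e₁ * (e₁ - e₃) * y) / (x - e₁) ^ 2)) = ((x - e₁) ^ 2 - e₁ * (e₁ - e₃)) / (2 * y)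
      field_simp
      ring
    · change ((e₁ * (x - e₃) / (x - e₁) - e₃) ^ 2 - e₃ * (e₃ - e₁)) /
        (2 * (-(e₁ * (e₁ - e₃) * y) / (x - e₁) ^ 2)) = -(((x - e₃) ^ 2 - e₃ * (e₃ - e₁)) / (2 * y))
      field_simp
      ring
    · change ((e₁ * (x - e₃) / (x - e₁) - 0) ^ 2 - e₁ * e₃) /
        (2 * (-(e₁ * (e₁ - e₃) * y) / (x - e₁) ^ 2)) = -(((x - 0) ^ 2 - e₁ * e₃) / (2 * y))
      field_simp
      ring

theorem rhalf : S_RHALF := by
  intro K _ _ _ a b e₁ e₃ hr S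
  have h2 := hr.two
  have n1 := hr.ne1
  have n3 := hr.ne3
  rcases S with _ | ⟨x, y, h⟩
  · exact ⟨0, add_zero _⟩
  have hf := curve hr h
  obtain ⟨r₁', hr1'⟩ := IsAlgClosed.exists_pow_nat_eq (x - e₁) (n := 2) (by norm_num)
  obtain ⟨r₃, hr3⟩ := IsAlgClosed.exists_pow_nat_eq (x - e₃) (n := 2) (by norm_num)
  obtain ⟨r₂, hr2⟩ := IsAlgClosed.exists_pow_nat_eq x (n := 2) (by norm_num)
  obtain ⟨r₁, hr1, hprod⟩ : ∃ r₁ : K, r₁ ^ 2 = x - e₁ ∧ r₁ * r₂ * r₃ = y := by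
    have h1 : (r₁' * r₂ * r₃ - y) * (r₁' * r₂ * r₃ + y) = 0 := by
      have h3 : (r₁' * r₂ * r₃ - y) * (r₁' * r₂ * r₃ + y) = r₁' ^ 2 * r₂ ^ 2 * r₃ ^ 2 - y ^ 2 := by
        ring
      rw [h3, hr1', hr2, hr3, hf]; ring
    rcases mul_eq_zero.mp h1 with h3 | h3
    · exact ⟨r₁', hr1', sub_eq_zero.mp h3⟩
    · refine ⟨-r₁', by rw [neg_sq, hr1'], ?_⟩
      linear_combination (-1) * h3
  have m12 : r₁ + r₂ ≠ 0 := by
    intro h0
    apply n1
    linear_combination hr1 - hr2 - (r₁ - r₂) * h0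
  have m23 : r₂ + r₃ ≠ 0 := by
    intro h0
    apply n3
    linear_combination hr3 - hr2 - (r₃ - r₂) * h0
  have m31 : r₃ + r₁ ≠ 0 := by
    intro h0
    apply hr.ne
    linear_combination hr1 - hr3 - (r₁ - r₃) * h0
  set X : K := (r₂ + r₁) * (r₂ + r₃) with hX
  set Y : K := (r₁ + r₂) * (r₂ + r₃) * (r₃ + r₁) with hY
  have hY0 : Y ≠ 0 := mul_ne_zero (mul_ne_zero m12 m23) m31
  have hX3 : X - e₃ = (r₃ + r₁) * (r₃ + r₂) := by
    rw [hX]; linear_combination hr2 - hr3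
  have hX1 : X - e₁ = (r₁ + r₂) * (r₁ + r₃) := by
    rw [hX]; linear_combination hr2 - hr1
  have hXe : Y ^ 2 = X * (X - e₁) * (X - e₃) := by
    rw [hX1, hX3, hX, hY]; ring
  have hcur : Y ^ 2 = X ^ 3 + a * X ^ 2 + b * X := by
    rw [hXe, hr.ha, hr.hb]; ring
  have hns : (Cv a b).Nonsingular X Y := by
    refine nons h2 ?_ ?_ hcur
    · rw [hr.hb]; exact mul_ne_zero n1 n3
    · rw [hr.ha, hr.hb]
      have h3 : (-(e₁ + e₃)) ^ 2 - 4 * (e₁ * e₃) = (e₁ - e₃) ^ 2 := by ring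
      rw [h3]
      exact pow_ne_zero 2 (sub_ne_zero.mpr hr.ne)
  have q1 : (r₁ + r₂ + r₃) * (2 * Y) = 3 * X ^ 2 + 2 * a * X + b := by
    have e1 : e₁ = r₂ ^ 2 - r₁ ^ 2 := by linear_combination hr1 - hr2
    have e3 : e₃ = r₂ ^ 2 - r₃ ^ 2 := by linear_combination hr3 - hr2
    rw [hr.ha, hr.hb, hY, hX, e1, e3]
    ring
  have q2 : x = (r₁ + r₂ + r₃) ^ 2 - a - 2 * X := by
    rw [hr.ha, hX]
    linear_combination (-1) * hr1 + hr2 - hr3
  have q3 : y = -(Y + (r₁ + r₂ + r₃) * (x - X)) := by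
    rw [← hprod, ← hr2, hX, hY]
    ring
  obtain ⟨h', he⟩ := dbl_mk hns h2 hY0 (r₁ + r₂ + r₃) x y q1 q2 q3
  exact ⟨Affine.Point.some X Y hns, he⟩

end Pool.Agent.W440.LL
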